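import Pool.Agent.Helper6.MONO.Stmts

set_option autoImplicit false

namespace Pool.Agent.Helper6.MONO

theorem st_MBC : ST_MBC := by
  intro p q r s0 s1 s1' s2 h01 h11 h12 ⟨C1, hC1, H1⟩ ⟨C2, hC2, H2⟩
  have hp : 0 < C1 * C2 := mul_pos hC1 hC2
  refine ⟨C1 * C2 + C1 + C2, by linarith, ?_⟩
  intro c d e hd a0 ha0 bs hbs s hs0 hs2
  have G1 := H1 c d e hd a0 ha0 bs hbs
  have G2 := H2 c d e hd a0 ha0 bs hbs
  have up1 : ∀ x : ℝ, x ≤ C1 → x ≤ C1 * C2 + C1 + C2 := fun x hx => by linarith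
  have up2 : ∀ x : ℝ, x ≤ C2 → x ≤ C1 * C2 + C1 + C2 := fun x hx => by linarith
  rcases le_or_gt s s1 with hs | hs
  · obtain ⟨a1, a2, a3, a4, a5, a6, a7, a8, a9⟩ := G1 s hs0 hs
    refine ⟨a1, a2, a3, up1 _ a4, up1 _ a5, up1 _ a6, up1 _ a7, up1 _ a8, ?_⟩
    intro s' hss' hs'2
    rcases le_or_gt s' s1 with hs' | hs'
    · refine le_trans (a9 s' hss' hs') (mul_le_mul_of_nonneg_right (by linarith) a3)
    · rcases le_or_gt s s1' with hs3 | hs3
      · obtain ⟨_, _, _, _, _, _, _, _, b9⟩ := G2 s1' le_rfl (by linarith)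
        have e1 := b9 s' (by linarith) hs'2
        have e2 := a9 s1' hs3 h11
        have e3 := mul_le_mul_of_nonneg_left e2 hC2.le
        refine le_trans e1 (le_trans e3 ?_)
        rw [← mul_assoc]
        exact mul_le_mul_of_nonneg_right (by linarith) a3
      · obtain ⟨_, _, _, _, _, _, _, _, b9⟩ := G2 s hs3.le hs2
        exact le_trans (b9 s' hss' hs'2) (mul_le_mul_of_nonneg_right (by linarith) a3)
  · obtain ⟨a1, a2, a3, a4, a5, a6, a7, a8, a9⟩ := G2 s (by linarith) hs2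
    refine ⟨a1, a2, a3, up2 _ a4, up2 _ a5, up2 _ a6, up2 _ a7, up2 _ a8, ?_⟩
    intro s' hss' hs'2
    exact le_trans (a9 s' hss' hs'2) (mul_le_mul_of_nonneg_right (by linarith) a3)

end Pool.Agent.Helper6.MONO
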